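import Pool.Agent.KS6_56.BD.D

set_option autoImplicit false

/-!
# MP_1541f7_pr: forward and backward Brownian motion with an independence time, in `ℝ^d`

A process in `ℝ^d` is given by its coordinates `X i`, `i : Fin d`.
-/

open scoped ENNReal NNReal Topology
open MeasureTheory ProbabilityTheory Set Filter

namespace Pool.Agent.Results.MP_1541f7_pr.EveryDimensionReversible

open Pool.Agent.R970.FB Pool.Agent.KS6_56.BD

/-- **The implication of Q1 fails in every dimension `d ≥ 1` (here `d = k + 1`), even if the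
independence time is the constant `0` and the process is reversible in law.** There is a process `X`
in `ℝ^d` with continuous paths and `X_0 = 0` which is a forward and a backward Brownian motion, such
that `(X_t)_{t ≥ 0}` and `(X_{-t})_{t ≥ 0}` are independent and `(X_{-t})_{t ∈ ℝ}` has the law of
`(X_t)_{t ∈ ℝ}`; but no process with continuous paths, on any probability space, whose law is
absolutely continuous with respect to the law of `X` (in particular, equal to it) is a two-sided
Brownian motion, not even its first coordinate is. For `d = 1` this answers Q1. -/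
theorem result :
    (∀ k : ℕ, ∃ (Ω : Type) (_ : MeasurableSpace Ω) (P : Measure Ω)
      (X : Fin (k + 1) → ℝ → Ω → ℝ), IsProbabilityMeasure P ∧ (∀ i t, Measurable (X i t)) ∧
      (∀ i ω, Continuous (X i · ω)) ∧ (∀ i ω, X i 0 ω = 0) ∧
      IsFBMd X P ∧ IsBBMd X P ∧ IndepAtd X (fun _ => 0) P ∧
      P.map (fun ω i t => X i (-t) ω) = P.map (fun ω i t => X i t ω) ∧
      ∀ (Ω' : Type) (_ : MeasurableSpace Ω') (P' : Measure Ω') (X' : Fin (k + 1) → ℝ → Ω' → ℝ),
        (∀ i t, Measurable (X' i t)) → (∀ i, ∀ᵐ ω ∂P', Continuous (X' i · ω)) →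
        P'.map (fun ω i t => X' i t ω) ≪ P.map (fun ω i t => X i t ω) →
        ¬ Is2BM (X' 0) P' ∧ ¬ Is2BMd X' P') ∧
    -- Q1 itself
    ∃ (Ω : Type) (_ : MeasurableSpace Ω) (P : Measure Ω) (X : ℝ → Ω → ℝ),
      IsProbabilityMeasure P ∧ (∀ t, Measurable (X t)) ∧ (∀ ω, Continuous (X · ω)) ∧
      IsFBM X P ∧ IsBBM X P ∧ (∃ T : Ω → ℝ, Measurable T ∧ IndepAt X T P) ∧ ¬ Is2BM X P := by
  refine ⟨main, ?_⟩
  obtain ⟨Ω, m, P, X, h1, h2, h3, -, h5, h6, h7, -, h9⟩ := main 0
  obtain ⟨S, s1, s2, s3⟩ := h5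
  obtain ⟨S', s1', s2', s3'⟩ := h6
  exact ⟨Ω, m, P, X 0, h1, h2 0, h3 0, ⟨S, s1, s2, fun n => (s3 n).1 0⟩,
    ⟨S', s1', s2', fun n => (s3' n).1 0⟩, ⟨fun _ => 0, measurable_const,
      h7.comp (measurable_pi_apply 0) (measurable_pi_apply 0)⟩,
    (h9 Ω m P X h2 (fun i => Filter.Eventually.of_forall (h3 i))
      Measure.AbsolutelyContinuous.rfl).1⟩

end Pool.Agent.Results.MP_1541f7_pr.EveryDimensionReversible
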